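import Pool.Agent.H891.EC.Small

/-!
MP_2a9600_co: every connected graph of minimum degree two other than the triangle has an edge cover
polynomial with at least three distinct roots.
-/

namespace Pool.Agent.Results.MP_2a9600_co.ThreeRoots

open Finset Polynomial Pool.Agent.H891.EC

/-- Positive answer to Q1. -/
theorem result : ∀ (V : Type) [Fintype V] [DecidableEq V] (G : SimpleGraph V) [DecidableRel G.Adj],
    G.Connected → G.minDegree = 2 → IsEmpty (G ≃g (⊤ : SimpleGraph (Fin 3))) →
    3 ≤ Set.encard {z : ℂ | (edgeCoverPoly G).eval z = 0} := by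
  intro V _ _ G _ hG hmin hK3
  have hne : Nonempty V := hG.nonempty
  have h2 : ∀ v, 2 ≤ G.degree v := fun v => hmin ▸ G.minDegree_le_degree v
  obtain ⟨v0, hv0⟩ := G.exists_minimal_degree_vertex
  rw [hmin] at hv0
  have h1 : ∀ v, 1 ≤ G.degree v := fun v => (by norm_num : 1 ≤ 2).trans (h2 v)
  have hEne : edgeCoverPoly G ≠ 0 := (natDegree_poly h1).2.ne_zero
  have hset : {z : ℂ | (edgeCoverPoly G).eval z = 0} =
      ((edgeCoverPoly G).roots.toFinset : Set ℂ) := by
    ext z
    simp [hEne, IsRoot]
  rw [hset, Set.encard_coe_eq_coe_finsetCard]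
  by_contra hcon
  have hfew : #(edgeCoverPoly G).roots.toFinset ≤ 2 := by
    by_contra h
    apply hcon
    have : 3 ≤ #(edgeCoverPoly G).roots.toFinset := by omega
    exact_mod_cast this
  obtain ⟨k, t, hm, ht, hn2, hlow, hcov, hneg⟩ := few_roots h2 ⟨v0, hv0.symm⟩ hfew
  have hmn := card_le_edges h2
  have hn3 : 3 ≤ Fintype.card V := by
    have := G.degree_lt_card_verts v0
    omega
  have hcs : ∀ S ∈ covers G, #G.edgeFinset - k ≤ #S := by
    intro S hS
    by_contra hlt
    have h3 := hlow #S (by omega)
    rw [coverCount_eq, card_eq_zero, filter_eq_empty_iff] at h3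
    exact h3 hS rfl
  have hk1 : 1 ≤ k := by
    rcases Nat.eq_zero_or_pos k with h | h
    · rw [h, Nat.zero_mul] at hm; omega
    · exact h
  rcases ht with rfl | rfl
  · -- t = 2
    have hn2' : #{v | G.degree v = 2} = k := by omega
    rcases Nat.lt_or_ge (#G.edgeFinset - Fintype.card V) 2 with hd | hd
    · apply case_small h2 hk1 (d := #G.edgeFinset - Fintype.card V) (by omega) (by omega)
        (by omega) hn2'
      rw [eval_neg_one] at hneg
      have e1 : #G.edgeFinset - k = k := by omega
      rw [e1] at hneg
      have h3 : ((∑ S ∈ covers G, (-1 : ℤ) ^ #S : ℤ) : ℂ) = (((-1) ^ k : ℤ) : ℂ) := by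
        push_cast
        rw [hneg]
        norm_num
      exact_mod_cast h3
    · have h3 := case_two hG h2 (k := k) (d := #G.edgeFinset - Fintype.card V) (by omega) (by omega)
        hd hn2' (fun S hS => by have := hcs S hS; omega)
      rw [hcov] at h3
      norm_num at h3
  · -- t = 3
    have hle : #{v | G.degree v = 2} ≤ Fintype.card V := card_le_univ _
    have hnm : Fintype.card V = #G.edgeFinset := by omega
    have hk := case_three hG h2 (k := k) (by omega) hnm
      (fun S hS => by have := hcs S hS; omega)
    have hk' : k = 1 := by omega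
    have hn : Fintype.card V = 3 := by omega
    have hadj : ∀ u v, u ≠ v → G.Adj u v := by
      intro u v huv
      have h3 : G.neighborFinset u = univ.erase u := by
        apply eq_of_subset_of_card_le
        · intro w hw
          rw [SimpleGraph.mem_neighborFinset] at hw
          exact mem_erase.2 ⟨hw.ne', mem_univ _⟩
        · rw [SimpleGraph.card_neighborFinset_eq_degree, card_erase_of_mem (mem_univ u), card_univ,
            hn]
          exact h2 u
      rw [← SimpleGraph.mem_neighborFinset, h3]
      exact mem_erase.2 ⟨huv.symm, mem_univ _⟩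
    apply hK3.false
    refine ⟨Fintype.equivFinOfCardEq hn, ?_⟩
    intro a b
    rw [SimpleGraph.top_adj, Ne, EmbeddingLike.apply_eq_iff_eq]
    exact ⟨fun h => hadj a b h, fun h => h.ne⟩

end Pool.Agent.Results.MP_2a9600_co.ThreeRoots
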